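import Pool.Agent.V1198.SickSt

/-!
# MP_013c33_an, Q1: the Stone space of the clopen algebra of a sick compactum is sick
-/

set_option autoImplicit false

namespace Pool.Agent.Results.MP_013c33_an.StoneSick

open Pool.Agent.V1198.BL Pool.Agent.V1198.SK

theorem clopens_cc (K : Type) [TopologicalSpace K] :
    Nonempty (TopologicalSpace.Clopens (ConnectedComponents K) ≃o TopologicalSpace.Clopens K) := by
  have key : ∀ W : TopologicalSpace.Clopens K, (ConnectedComponents.mk : K → _) ⁻¹'
      ((ConnectedComponents.mk : K → _) '' (W : Set K)) = W := by
    intro W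
    refine Set.Subset.antisymm ?_ (Set.subset_preimage_image _ _)
    rintro x ⟨y, hy, hxy⟩
    have h1 := ConnectedComponents.coe_eq_coe'.1 hxy.symm
    exact W.isClopen.connectedComponent_subset hy h1
  have hq := ConnectedComponents.isQuotientMap_coe (α := K)
  refine ⟨{ toFun := fun c => ⟨(ConnectedComponents.mk : K → _) ⁻¹' c,
              c.isClopen.preimage hq.continuous⟩
            invFun := fun W => ⟨(ConnectedComponents.mk : K → _) '' W, ?_⟩
            left_inv := ?_
            right_inv := ?_
            map_rel_iff' := ?_ }⟩
  · rw [← hq.isClopen_preimage, key]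
    exact W.isClopen
  · intro c
    ext s
    obtain ⟨x, rfl⟩ := hq.surjective s
    constructor
    · rintro ⟨y, hy, hxy⟩
      rw [← hxy]
      exact hy
    · intro h
      exact ⟨x, h, rfl⟩
  · intro W
    exact TopologicalSpace.Clopens.ext (key W)
  · intro a b
    constructor
    · intro h s hs
      obtain ⟨x, rfl⟩ := hq.surjective s
      exact h hs
    · intro h x hx
      exact h hx

/-- **Theorem.** Let `K` be a sick compact Hausdorff space. There is a totally disconnected compact
Hausdorff space `S` whose algebra of clopen sets is isomorphic to that of `K`, and every such `S`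
(that is, the Stone space of `Clop(K)`) is sick. -/
theorem result : ∀ (K : Type) [TopologicalSpace K] [CompactSpace K] [T2Space K], Sick1 K →
    (∃ (S : Type) (_ : TopologicalSpace S), CompactSpace S ∧ T2Space S ∧
      TotallyDisconnectedSpace S ∧
      Nonempty (TopologicalSpace.Clopens S ≃o TopologicalSpace.Clopens K)) ∧
    ∀ (S : Type) [TopologicalSpace S] [CompactSpace S] [T2Space S] [TotallyDisconnectedSpace S],
      Nonempty (TopologicalSpace.Clopens S ≃o TopologicalSpace.Clopens K) → Sick1 S := by
  intro K _ _ _ hK
  refine ⟨⟨ConnectedComponents K, inferInstance, inferInstance, inferInstance, inferInstance,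
    clopens_cc K⟩, ?_⟩
  rintro S _ _ _ _ ⟨e⟩
  exact sick_stone e hK

end Pool.Agent.Results.MP_013c33_an.StoneSick
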